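import Pool.Agent.Helper24.SE.Rat
import Pool.Agent.Helper24.SE.Acyc
import Pool.Agent.Helper24.KF.NoBase
import Pool.Agent.Helper95.WC.Main

/-!
# One twist of the weight complexes of the schemes `t ^ 2 - t = y f(x)`
-/

set_option autoImplicit false
set_option linter.unusedSectionVars false

open CategoryTheory Limits AlgebraicGeometry MvPolynomial Pool.Agent.Y116.UV
  Pool.Agent.Q282.UM Pool.Agent.Q282.UK Pool.Agent.Helper62.EC Pool.Agent.Helper24.KD
  Pool.Agent.Helper24.KF Pool.Agent.Helper24.SE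

open Pool.Agent.Helper95.WC (hyper dbl addOne)

namespace Pool.Agent.Helper7.UT

universe v u

variable {C : Type u} [Category.{v} C] [Preadditive C] [HasBinaryBiproducts C] [HasZeroObject C]

/-- A property of complexes of motives with the two out of three property. -/
structure Th (T : HK C → Prop) : Prop where
  iso : ∀ {K L : HK C}, Nonempty (K ≅ L) → T K → T L
  mid : ∀ {K L M : HK C}, IsDistinguished K L M → T K → T M → T L
  third : ∀ {K L M : HK C}, IsDistinguished K L M → T K → T L → T M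
  first : ∀ {K L M : HK C}, IsDistinguished K L M → T L → T M → T K

/-- The property `T` for the twist by `n` of the weight complex of `X`. -/
def QP (T : HK C → Prop) {k : Type} [Field k] (D : Weights k C) (n : ℤ) (X : Sch k) : Prop :=
  T (onHK (D.tw n) (D.W X))

theorem th_one (F : C ⥤ ModuleCat.{0} ℚ) [F.Additive] : Th fun K => TOne F K 0 where
  iso e h := (tOne F).iso e h
  mid h h1 h2 := by
    have := (tOne F).mid h h1 h2
    rwa [add_zero] at this
  third h h1 h2 := by
    have := (tOne F).third h h1 h2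
    rwa [sub_zero] at this
  first h h1 h2 := by
    have := (tOne F).first h h1 h2
    rwa [sub_zero] at this

theorem th_acy [HasFiniteBiproducts C] (F : C ⥤ ModuleCat.{0} ℚ) [F.Additive] : Th (Acy F) where
  iso e h := acy_iso F e h
  mid h h1 h2 := acy_mid F h h1 h2
  third h h1 h2 := acy_right F h h1 h2
  first h h1 h2 := acy_left F h h1 h2

variable [HasFiniteBiproducts C] {T : HK C → Prop} (hT : Th T) {k : Type} [Field k]
  {D : Weights k C} (hD : IsWeightComplex D)

include hT hD

theorem cls (n : ℤ) : Cls True (QP T D n) where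
  iso hX e h := by
    obtain ⟨e⟩ := hD.iso hX e
    exact hT.iso ⟨((D.tw n).mapHomotopyCategory (ComplexShape.up ℤ)).mapIso e⟩ h
  total i j h ht hZ hU := hT.mid (onHK_triangle (D.tw n) (hD.triangle i j h ht)) hU hZ
  opened i j h ht hZ hX := hT.first (onHK_triangle (D.tw n) (hD.triangle i j h ht)) hX hZ
  closed i j h ht hX hU := hT.third (onHK_triangle (D.tw n) (hD.triangle i j h ht)) hU hX

lemma twist {X Y : Sch k} {m : ℤ} (e : Nonempty (D.W X ≅ onHK (D.tw m) (D.W Y))) (n : ℤ) :
    QP T D n X ↔ QP T D (m + n) Y := by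
  obtain ⟨e⟩ := e
  obtain ⟨e1⟩ := hD.tw_add m n
  obtain ⟨e2⟩ := onHK_comp e1 (D.W Y)
  have h1 : onHK (D.tw n) (D.W X) ≅ onHK (D.tw (m + n)) (D.W Y) :=
    ((D.tw n).mapHomotopyCategory (ComplexShape.up ℤ)).mapIso e ≪≫ e2.symm
  exact ⟨fun h => hT.iso ⟨h1⟩ h, fun h => hT.iso ⟨h1.symm⟩ h⟩

lemma bundle {B : Type} [CommRing B] [Algebra k B] [Algebra.FiniteType k B] {m : ℕ}
    {g : Fin m → B} {U : Sch k} {j : U ⟶ aff k B} (hj : IsComplementOf g j) (n : ℤ) :
    QP T D (n + (m - 1)) (jouS g) ↔ QP T D n U := by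
  rw [twist hT hD (hD.bundle B m g U j hj)]
  rw [show (1 - (m : ℤ)) + (n + (m - 1)) = n by ring]

/-- The affine spaces. -/
lemma space {n : ℤ} {r : ℕ} (hp : QP T D (n - r) (aff k k)) :
    QP T D n (aff k (MvPolynomial (Fin r) k)) := by
  have h1 := (bundle hT hD (compl_id (k := k) k r) (n - r)).mpr hp
  have h2 : n - r + (((r + 1 : ℕ) : ℤ) - 1) = n := by push_cast; ring
  rw [h2] at h1
  exact iso_alg (cls hT hD n) (jouOne k r) h1

/-- The product with the affine line. -/
lemma line (B : Type) [CommRing B] [Algebra k B] [Algebra.FiniteType k B] (n : ℤ) :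
    QP T D (n + 1) (aff k (Polynomial B)) ↔ QP T D n (aff k B) := by
  have h1 := bundle hT hD (compl_id (k := k) B 1) n
  have h2 : n + (((1 + 1 : ℕ) : ℤ) - 1) = n + 1 := by push_cast; ring
  rw [h2] at h1
  rw [← h1]
  have e1 : Jou (f1 B 1) ≃ₐ[k] Polynomial B :=
    ((jouOne B 1).trans (MvPolynomial.uniqueAlgEquiv B (Fin 1))).restrictScalars k
  have : Algebra.FiniteType k (Jou (f1 B 1)) :=
    Algebra.FiniteType.trans (S := B) inferInstance inferInstance
  exact ⟨iso_alg (cls hT hD _) e1.symm, iso_alg (cls hT hD _) e1⟩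

/-- The scheme `t ^ 2 - t = y f(x)` and the hypersurface `f = 0`. -/
theorem dbl_hyper {N : ℕ} {n : ℤ} (hp : QP T D (n - N) (aff k k)) (F : MvPolynomial (Fin N) k) :
    QP T D (n + 1) (dbl F) ↔ QP T D n (hyper F) := by
  have h1 : QP T D (n + 1) (aff k (Polynomial (MvPolynomial (Fin N) k))) :=
    (line hT hD _ _).2 (space hT hD hp)
  exact (Pool.Agent.Helper62.DB.dbl_iff (cls hT hD (n + 1)) F h1).trans (line hT hD _ _)

/-- From the hypersurfaces to all schemes. -/
theorem of_hyper [PerfectField k] {d : ℕ} {n : ℤ} (hp : QP T D (n - (d + 1 : ℕ)) (aff k k))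
    (h : ∀ F : MvPolynomial (Fin (d + 1)) k, QP T D n (hyper F)) (X : Sch k) (hX : FT True X)
    (hd : topologicalKrullDim X.left ≤ d) : QP T D n X :=
  Pool.Agent.Helper19.UA.of_hyp (cls hT hD n) (space hT hD hp) h X hX hd

/-- From all schemes to the hypersurfaces. -/
theorem to_hyper {d : ℕ} {n : ℤ} (hp : QP T D (n - (d + 1 : ℕ)) (aff k k))
    (h : ∀ X : Sch k, FT True X → topologicalKrullDim X.left ≤ d → QP T D n X)
    (F : MvPolynomial (Fin (d + 1)) k) : QP T D n (hyper F) := by
  by_cases hF : F = 0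
  · subst hF
    have h3 : Ideal.span {(0 : MvPolynomial (Fin (d + 1)) k)} = ⊥ :=
      Ideal.span_singleton_eq_bot.2 rfl
    change QP T D n (aff k _)
    rw [h3]
    exact iso_alg (cls hT hD n) (AlgEquiv.quotientBot k _).symm (space hT hD hp)
  · refine h _ (ft_aff True) ?_
    change topologicalKrullDim (aff k _).left ≤ _
    rw [Pool.Agent.Z125.UN.topDim_aff]
    exact Pool.Agent.Z125.UN.dim_quot _ (by rwa [Ne, Ideal.span_singleton_eq_bot])

omit hT

variable {S : HK C → ℤ → Prop} (hS : TD S)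

include hS

/-- The product with the affine line. -/
lemma lineQ (B : Type) [CommRing B] [Algebra k B] [Algebra.FiniteType k B] (n c : ℤ) :
    QT S D (n + 1) (aff k (Polynomial B)) c ↔ QT S D n (aff k B) c := by
  have h1 := bundleT hS hD (compl_id (k := k) B 1) n c
  have h2 : n + (((1 + 1 : ℕ) : ℤ) - 1) = n + 1 := by push_cast; ring
  rw [h2] at h1
  rw [← h1]
  have e1 : Jou (f1 B 1) ≃ₐ[k] Polynomial B :=
    ((jouOne B 1).trans (MvPolynomial.uniqueAlgEquiv B (Fin 1))).restrictScalars k
  have : Algebra.FiniteType k (Jou (f1 B 1)) :=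
    Algebra.FiniteType.trans (S := B) inferInstance inferInstance
  exact ⟨Pool.Agent.Helper24.KE.isoQ (dfcT hS hD _) e1.symm,
    Pool.Agent.Helper24.KE.isoQ (dfcT hS hD _) e1⟩

/-- The defects of the scheme `t ^ 2 - t = y f(x)` and of the hypersurface `f = 0`. -/
theorem dblQ {N : ℕ} {n : ℤ} (hs : QT S D n (aff k (MvPolynomial (Fin N) k)) 0)
    (F : MvPolynomial (Fin N) k) (c : ℤ) :
    QT S D (n + 1) (dbl F) c ↔ QT S D n (hyper F) c := by
  have h1 : QT S D (n + 1) (aff k (Polynomial (MvPolynomial (Fin N) k))) 0 :=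
    (lineQ hD hS _ _ _).2 hs
  have hQ := dfcT hS hD (n + 1)
  have h2 := lineQ hD hS (MvPolynomial (Fin N) k ⧸ Ideal.span {F}) n c
  refine Iff.trans ?_ h2
  constructor
  · intro h
    have := hQ.closed _ _ (ft_aff True) (Pool.Agent.Helper62.DB.triple_dbl F k) h h1
    rwa [sub_zero] at this
  · intro h
    have := hQ.total _ _ (ft_aff True) (Pool.Agent.Helper62.DB.triple_dbl F k) h h1
    rwa [add_zero] at this

/-- The defects of the hypersurface `f = 0` and of its complement. -/
theorem hyperQ {N : ℕ} {n : ℤ} (hs : QT S D n (aff k (MvPolynomial (Fin N) k)) 0)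
    (F : MvPolynomial (Fin N) k) (c : ℤ) :
    QT S D n (hyper F) c ↔ QT S D n (Pool.Agent.Helper24.KE.U F) (-c) := by
  have hQ := dfcT hS hD n
  constructor
  · intro h
    have := Pool.Agent.Helper24.KE.openQ hQ F h hs
    rwa [zero_sub] at this
  · intro h
    have := Pool.Agent.Helper24.KE.closedQ hQ F hs h
    rwa [zero_sub, neg_neg] at this

end Pool.Agent.Helper7.UT
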