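import Pool.Agent.Helper7.UT.Main
import Pool.Agent.Helper24.KG.WF

/-!
# One twist of the weight complexes of the schemes `t ^ 2 - t = y f(x)`, the terms being direct summands
-/

set_option autoImplicit false
set_option linter.unusedSectionVars false

open CategoryTheory Limits AlgebraicGeometry MvPolynomial Pool.Agent.Y116.UV
  Pool.Agent.Q282.UM Pool.Agent.Q282.UK Pool.Agent.Helper62.EC Pool.Agent.Helper24.KD
  Pool.Agent.Helper24.KF Pool.Agent.Helper24.SE

open Pool.Agent.Helper95.WC (hyper dbl addOne)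

open Pool.Agent.Helper7.UT (Th QP)

open Pool.Agent.Helper24.KG (IsWeightsF)

namespace Pool.Agent.Helper7.UTF

universe v u

variable {C : Type u} [Category.{v} C] [Preadditive C] [HasBinaryBiproducts C] [HasZeroObject C]

variable [HasFiniteBiproducts C] {T : HK C → Prop} (hT : Th T) {k : Type} [Field k]
  {D : Weights k C} (hD : IsWeightsF D)

include hT hD

theorem cls (n : ℤ) : Cls True (QP T D n) where
  iso hX e h := by
    obtain ⟨e⟩ := hD.iso hX e
    exact hT.iso ⟨((D.tw n).mapHomotopyCategory (ComplexShape.up ℤ)).mapIso e⟩ h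
  total i j h ht hZ hU := hT.mid (onHK_triangle (D.tw n) (hD.triangle i j h ht)) hU hZ
  opened i j h ht hZ hX := hT.first (onHK_triangle (D.tw n) (hD.triangle i j h ht)) hX hZ
  closed i j h ht hX hU := hT.third (onHK_triangle (D.tw n) (hD.triangle i j h ht)) hU hX

lemma twist {X Y : Sch k} {m : ℤ} (e : Nonempty (D.W X ≅ onHK (D.tw m) (D.W Y))) (n : ℤ) :
    QP T D n X ↔ QP T D (m + n) Y := by
  obtain ⟨e⟩ := e
  obtain ⟨e1⟩ := hD.tw_add m n
  obtain ⟨e2⟩ := onHK_comp e1 (D.W Y)
  have h1 : onHK (D.tw n) (D.W X) ≅ onHK (D.tw (m + n)) (D.W Y) :=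
    ((D.tw n).mapHomotopyCategory (ComplexShape.up ℤ)).mapIso e ≪≫ e2.symm
  exact ⟨fun h => hT.iso ⟨h1⟩ h, fun h => hT.iso ⟨h1.symm⟩ h⟩

lemma bundle {B : Type} [CommRing B] [Algebra k B] [Algebra.FiniteType k B] {m : ℕ}
    {g : Fin m → B} {U : Sch k} {j : U ⟶ aff k B} (hj : IsComplementOf g j) (n : ℤ) :
    QP T D (n + (m - 1)) (jouS g) ↔ QP T D n U := by
  rw [twist hT hD (hD.bundle B m g U j hj)]
  rw [show (1 - (m : ℤ)) + (n + (m - 1)) = n by ring]

/-- The affine spaces. -/
lemma space {n : ℤ} {r : ℕ} (hp : QP T D (n - r) (aff k k)) :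
    QP T D n (aff k (MvPolynomial (Fin r) k)) := by
  have h1 := (bundle hT hD (compl_id (k := k) k r) (n - r)).mpr hp
  have h2 : n - r + (((r + 1 : ℕ) : ℤ) - 1) = n := by push_cast; ring
  rw [h2] at h1
  exact iso_alg (cls hT hD n) (jouOne k r) h1

/-- The product with the affine line. -/
lemma line (B : Type) [CommRing B] [Algebra k B] [Algebra.FiniteType k B] (n : ℤ) :
    QP T D (n + 1) (aff k (Polynomial B)) ↔ QP T D n (aff k B) := by
  have h1 := bundle hT hD (compl_id (k := k) B 1) n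
  have h2 : n + (((1 + 1 : ℕ) : ℤ) - 1) = n + 1 := by push_cast; ring
  rw [h2] at h1
  rw [← h1]
  have e1 : Jou (f1 B 1) ≃ₐ[k] Polynomial B :=
    ((jouOne B 1).trans (MvPolynomial.uniqueAlgEquiv B (Fin 1))).restrictScalars k
  have : Algebra.FiniteType k (Jou (f1 B 1)) :=
    Algebra.FiniteType.trans (S := B) inferInstance inferInstance
  exact ⟨iso_alg (cls hT hD _) e1.symm, iso_alg (cls hT hD _) e1⟩

/-- The scheme `t ^ 2 - t = y f(x)` and the hypersurface `f = 0`. -/
theorem dbl_hyper {N : ℕ} {n : ℤ} (hp : QP T D (n - N) (aff k k)) (F : MvPolynomial (Fin N) k) :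
    QP T D (n + 1) (dbl F) ↔ QP T D n (hyper F) := by
  have h1 : QP T D (n + 1) (aff k (Polynomial (MvPolynomial (Fin N) k))) :=
    (line hT hD _ _).2 (space hT hD hp)
  exact (Pool.Agent.Helper62.DB.dbl_iff (cls hT hD (n + 1)) F h1).trans (line hT hD _ _)

/-- From the hypersurfaces to all schemes. -/
theorem of_hyper [PerfectField k] {d : ℕ} {n : ℤ} (hp : QP T D (n - (d + 1 : ℕ)) (aff k k))
    (h : ∀ F : MvPolynomial (Fin (d + 1)) k, QP T D n (hyper F)) (X : Sch k) (hX : FT True X)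
    (hd : topologicalKrullDim X.left ≤ d) : QP T D n X :=
  Pool.Agent.Helper19.UA.of_hyp (cls hT hD n) (space hT hD hp) h X hX hd

/-- From all schemes to the hypersurfaces. -/
theorem to_hyper {d : ℕ} {n : ℤ} (hp : QP T D (n - (d + 1 : ℕ)) (aff k k))
    (h : ∀ X : Sch k, FT True X → topologicalKrullDim X.left ≤ d → QP T D n X)
    (F : MvPolynomial (Fin (d + 1)) k) : QP T D n (hyper F) := by
  by_cases hF : F = 0
  · subst hF
    have h3 : Ideal.span {(0 : MvPolynomial (Fin (d + 1)) k)} = ⊥ :=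
      Ideal.span_singleton_eq_bot.2 rfl
    change QP T D n (aff k _)
    rw [h3]
    exact iso_alg (cls hT hD n) (AlgEquiv.quotientBot k _).symm (space hT hD hp)
  · refine h _ (ft_aff True) ?_
    change topologicalKrullDim (aff k _).left ≤ _
    rw [Pool.Agent.Z125.UN.topDim_aff]
    exact Pool.Agent.Z125.UN.dim_quot _ (by rwa [Ne, Ideal.span_singleton_eq_bot])


omit hT

/-- From the smooth projective schemes of dimension at most `d` to all schemes of dimension at most `d`. -/
theorem acy_dim (F : C ⥤ ModuleCat.{0} ℚ) [F.Additive] {n : ℤ} {d : ℕ}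
    (h : ∀ Y : Sch k, IsSmoothProjective Y → topologicalKrullDim Y.left ≤ d →
      Subsingleton (F.obj ((D.tw n).obj (D.h Y)))) (X : Sch k)
    (hX : FT True X) (hd : topologicalKrullDim X.left ≤ d) : QP (Acy F) D n X := by
  obtain ⟨K, _, e, hK⟩ := hD.terms X hX d hd
  refine acy_iso F ⟨((D.tw n).mapHomotopyCategory
      (ComplexShape.up ℤ)).mapIso e.some.symm⟩ ?_
  refine acy_terms F (((D.tw n).mapHomologicalComplex
      (ComplexShape.up ℤ)).obj K) fun i => ?_
  obtain ⟨M, a, b, hab, hM⟩ := hK i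
  have h3 : IsZero ((D.tw n ⋙ F).obj M) := by
    refine sumOf_zero (D.tw n ⋙ F) ?_ hM
    rintro N ⟨Y, a1, a2, ⟨e⟩⟩
    have h1 : Subsingleton ((D.tw n ⋙ F).obj (D.h Y)) := h Y a1 a2
    exact (ModuleCat.isZero_of_subsingleton _).of_iso ((D.tw n ⋙ F).mapIso e.symm)
  change IsZero ((D.tw n ⋙ F).obj (K.X i))
  rw [IsZero.iff_id_eq_zero, ← (D.tw n ⋙ F).map_id, ← hab, Functor.map_comp,
    (h3.eq_zero_of_tgt ((D.tw n ⋙ F).map a)), zero_comp]

/-- From the weight complex to the smooth projective scheme. -/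
theorem acy_proj (F : C ⥤ ModuleCat.{0} ℚ) [F.Additive] {n : ℤ} {X : Sch k}
    (hX : IsSmoothProjective X) (h : QP (Acy F) D n X) :
    Subsingleton (F.obj ((D.tw n).obj (D.h X))) := by
  obtain ⟨e⟩ := hD.projective X hX
  have h1 : Acy F (inZero ((D.tw n).obj (D.h X))) := by
    refine acy_iso F ⟨((D.tw n).mapHomotopyCategory (ComplexShape.up ℤ)).mapIso e ≪≫ ?_⟩ h
    exact (HomotopyCategory.quotient C (ComplexShape.up ℤ)).mapIso
      ((HomologicalComplex.singleMapHomologicalComplex (D.tw n) (ComplexShape.up ℤ) 0).app (D.h X))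
  exact ModuleCat.subsingleton_of_isZero (acy_object F _ h1)

end Pool.Agent.Helper7.UTF
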